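import Pool.Agent.W434.BW.StmC

/-! Project BW, part K1. -/

set_option autoImplicit false

namespace Pool.Agent.W479.BW

open Pool.Agent.W434.BW

theorem two_self {A : Type} (hc : S_clo) (E : Ops A) (hid : IdCl E) (u : (Fin 3 → A) → A)
    (hu : u ∈ E 3)
    (hw : ∀ x y : A, u ![y, x, x] = u ![x, y, x] ∧ u ![x, y, x] = u ![x, x, y])
    (hn : NLQ (clA E)) : Two (tm3 E u hu) (tm3 E u hu) (clA E) (clA E) where
  n1 := hc.2.2.2.1 A E hid u hu hw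
  n2 := hc.2.2.2.1 A E hid u hu hw
  inv := fun _ => Iff.rfl
  h3 := fun _ _ _ _ _ _ => Iff.rfl
  nl1 := hn
  nl2 := hn

theorem maj_mem {A : Type} {u : (Fin 3 → A) → A} {C P : Set A} (hm : Maj3 u C P) (hCP : C ⊆ P)
    (x : Fin 3 → A) (hx : ∀ i, x i ∈ P)
    (h : (x 0 ∈ C ∧ x 1 ∈ C) ∨ (x 0 ∈ C ∧ x 2 ∈ C) ∨ (x 1 ∈ C ∧ x 2 ∈ C)) : u x ∈ C := by
  have e : x = ![x 0, x 1, x 2] := by
    funext i
    fin_cases i <;> rfl
  rw [e]
  rcases h with ⟨h0, h1⟩ | ⟨h0, h2⟩ | ⟨h1, h2⟩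
  · exact (hm _ h0 _ h1 _ (hx 2)).1
  · exact (hm _ h0 _ h2 _ (hx 1)).2.1
  · exact (hm _ h1 _ h2 _ (hx 0)).2.2

theorem k1 (hc : S_clo) (hb : S_nlb) (h3 : S_n3) (h34 : S_n34) (hg : S_nlg) : S_k1 := by
  intro A _ E C P hmin hC hP hCP ht
  have hid : IdCl E := hc.2.2.2.2.2.1 A E hmin
  obtain ⟨hcl, hbw, hm⟩ := hmin
  obtain ⟨v, hv, w, hw, hvw⟩ := id hbw
  have htwo := two_self hc E hid v hv hvw.2.2.1 (hb.2 A E hid hbw)
  obtain ⟨u, hu, huM, huw⟩ := h3 A E _ C P hcl hid htwo hC hP hCP ht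
  have huG : u ∈ GC E C P 3 := by
    refine ⟨hu, fun x y hxy => ?_⟩
    have hxP : ∀ i, x i ∈ P := fun i => (hxy i).1
    have hyP : ∀ i, y i ∈ P := fun i => (hxy i).2.1
    refine ⟨hP 3 u hu x hxP, hP 3 u hu y hyP, ?_⟩
    have hx := maj_mem huM hCP x hxP
    have hy := maj_mem huM hCP y hyP
    have h0 := (hxy 0).2.2
    have h1 := (hxy 1).2.2
    have h2 := (hxy 2).2.2
    rcases h0 with h0 | h0 <;> rcases h1 with h1 | h1 <;> rcases h2 with h2 | h2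
    · exact Or.inl (hx (Or.inl ⟨h0, h1⟩))
    · exact Or.inl (hx (Or.inl ⟨h0, h1⟩))
    · exact Or.inl (hx (Or.inr (Or.inl ⟨h0, h2⟩)))
    · exact Or.inr (hy (Or.inr (Or.inr ⟨h1, h2⟩)))
    · exact Or.inl (hx (Or.inr (Or.inr ⟨h1, h2⟩)))
    · exact Or.inr (hy (Or.inr (Or.inl ⟨h0, h2⟩)))
    · exact Or.inr (hy (Or.inl ⟨h0, h1⟩))
    · exact Or.inr (hy (Or.inl ⟨h0, h1⟩))
  have hnG : NLQ (clA (GC E C P)) := hg A E C P u hcl hid hbw hC hP hCP huG huM huw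
  have hclG : IsCl (GC E C P) := hc.2.2.2.2.2.2.1 A E C P hcl
  have hidG : IdCl (GC E C P) := fun k f hf a => hid k f hf.1 a
  have htwoG := two_self hc (GC E C P) hidG u huG huw hnG
  obtain ⟨v', hv', -, w', hw', -, hvw'⟩ := h34 A (GC E C P) (GC E C P) _ _ hclG hclG hidG hidG
    (fun _ => Iff.rfl) htwoG
  have hbwG : IsBW (GC E C P) := ⟨v', hv', w', hw', hvw'⟩
  have hEq := hm (GC E C P) hclG hbwG (fun k f hf => hf.1)
  intro k f hf x y hxy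
  rw [← hEq] at hf
  exact hf.2 x y hxy

end Pool.Agent.W479.BW
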